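import Pool.Agent.Run7.h847.PL.ADPB

/-!
# Project PRL (helper286), piece ADP, part C: the assembly

helper847. `T_ADP : P_ADP`.
-/

set_option autoImplicit false
set_option linter.all false

open Polynomial IsDedekindDomain WithZero
open scoped Classical

namespace Run7.h847.PL

open Pool.Agent.N874.PP (Ov Ev Sq1)
open Pool.Agent.N352.PJ (IsGen Crd GoodR Ht dsc S_INT)
open Pool.Agent.N765.PJ (ev ev_L ev_f ev_ker ev_surj ex_poly ev_CQ theta_ex val_one)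
open Run7.h784.TG (Fm LocW)
open Run7.h646.TG (fs mem_fs fs_coprime fs_prod fs_dvd fs_nonempty PF ex_prime prime_fac
  map_eq_iff dvd_of_map red_sqf one_of unram even_nonsq sq1_unit)
open Run7.h286.PL (Adp cls P_ADP)
open Pool.Agent.N539.PP (sq1_mul_sq ev_mul Sq1.mul Sq1.ev sq1_mul_iff)

section main

variable {k K L O : Type} [Field k] [Field K] [Algebra k[X] K] [IsFractionRing k[X] K]
  [Field L] [Algebra K L] [Algebra k[X] L] [IsScalarTower k[X] K L] [CommRing O]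
  [IsDedekindDomain O] [Algebra O L] [IsFractionRing O L] [Algebra k[X] O]
  [IsScalarTower k[X] O L] [IsIntegralClosure O k[X] L] {g : ℕ} {f : k[X][X]} {θ : L}
  {Q : k[X]} {κ : Type} [Field κ] {π : k[X] →+* κ} {t : O}

theorem sq1_of_lt {𝔓 : HeightOneSpectrum O} {x s : L}
    (h : 𝔓.valuation L (x - s ^ 2) < 𝔓.valuation L (s ^ 2)) : Sq1 𝔓 x := by
  refine ⟨s, ?_⟩
  have e : 𝔓.valuation L x = 𝔓.valuation L (s ^ 2) := by
    have : x = s ^ 2 + (x - s ^ 2) := by ring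
    rw [this]
    exact Valuation.map_add_eq_of_lt_left _ h
  rwa [e]

/-- one element with the classes `cls` at all primes over `Q` and known norm -/
theorem eta (hπs : Function.Surjective π)
    (hπ : ∀ c, π c = 0 ↔ Q ∣ c) (hQ : Irreducible Q)
    (hI : S_INT) (h : IsGen g K f θ) (hsq : Squarefree (dsc g f)) (ht : algebraMap O L t = θ)
    (hs : Squarefree (f.map π)) {a b : k[X][X]} (ha : a.Monic) (hb : b.Monic)
    (hab : ∀ j, Q ∣ (f - a * b).coeff j) {w : k[X]} (hw : ¬ Q ∣ w) :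
    ∃ (η : L) (e : k[X]), η ≠ 0 ∧ π e = (π w) ^ a.natDegree ∧ ¬ Q ∣ e ∧
      Algebra.norm K η = algebraMap k[X] K ((-Q) ^ a.natDegree * e) ∧
      ∀ 𝔓 : HeightOneSpectrum O, Ov Q 𝔓 → Sq1 𝔓 (η * cls θ (Q * w) 𝔓 a b) := by
  have hfd : FiniteDimensional K L := Pool.Agent.N227.PJ.fd h
  obtain ⟨a', e, e1, e2, e3, e4⟩ := mod_a (K := K) hπs hπ hQ hI h hsq ht hs ha hb hab w
  have hπw : π w ≠ 0 := fun h0 => hw ((hπ _).1 h0)
  have hQe : ¬ Q ∣ e := by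
    rw [← hπ, e2]
    exact pow_ne_zero _ hπw
  have he0 : e ≠ 0 := by
    rintro rfl
    exact hQe (dvd_zero _)
  refine ⟨eval₂ (algebraMap k[X] L) θ a', e, ?_, e2, hQe, e3, ?_⟩
  · intro h0
    rw [h0, Algebra.norm_zero] at e3
    have h1 : (-Q) ^ a.natDegree * e = 0 :=
      IsFractionRing.injective k[X] K (by rw [← e3, map_zero])
    exact (mul_ne_zero (pow_ne_zero _ (neg_ne_zero.2 hQ.ne_zero)) he0) h1
  · intro 𝔓 hov
    rcases cls_dich (K := K) hπs hπ hQ hI h hsq ht hs hab hw hov with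
      ⟨h1, h2, h3, h4, h5⟩ | ⟨h1, h2, h3, h4⟩
    · apply sq1_of_lt (s := algebraMap k[X] L (Q * w))
      have h6 := e4 𝔓 hov h1
      rw [unram (K := K) hπs hπ hQ hI h hsq ht hs hov] at h6
      have e5 : eval₂ (algebraMap k[X] L) θ a' * cls θ (Q * w) 𝔓 a b -
          algebraMap k[X] L (Q * w) ^ 2 = - (algebraMap k[X] L (Q * w) *
            (eval₂ (algebraMap k[X] L) θ a' * eval₂ (algebraMap k[X] L) θ b +
              algebraMap k[X] L (Q * w))) := by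
        rw [h3, map_neg]
        ring
      rw [e5, Valuation.map_neg, map_mul, map_pow, h5, sq]
      exact mul_lt_mul_of_pos_left h6 (zero_lt_iff.2 exp_ne_zero)
    · apply sq1_of_lt (s := eval₂ (algebraMap k[X] L) θ a)
      have h6 := cong_val (K := K) hπ h e1 hov
      have e5 : eval₂ (algebraMap k[X] L) θ a' * cls θ (Q * w) 𝔓 a b -
          eval₂ (algebraMap k[X] L) θ a ^ 2 =
          (eval₂ (algebraMap k[X] L) θ a' - eval₂ (algebraMap k[X] L) θ a) *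
            eval₂ (algebraMap k[X] L) θ a := by
        rw [h3]
        ring
      rw [e5, map_mul, map_pow, h1, mul_one, one_pow]
      exact h6

/-- adapted factorisations: the condition on the valuations for a factorisation -/
theorem ev_cls (hπs : Function.Surjective π)
    (hπ : ∀ c, π c = 0 ↔ Q ∣ c) (hQ : Irreducible Q)
    (hI : S_INT) (h : IsGen g K f θ) (hsq : Squarefree (dsc g f)) (ht : algebraMap O L t = θ)
    (hs : Squarefree (f.map π)) {a b : k[X][X]}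
    (hab : ∀ j, Q ∣ (f - a * b).coeff j) {w : k[X]} (hw : ¬ Q ∣ w) {x : L} (hx : x ≠ 0)
    {𝔓 : HeightOneSpectrum O} (hov : Ov Q 𝔓) :
    Ev 𝔓 (x * cls θ (Q * w) 𝔓 a b) ↔
      (𝔓.valuation L (eval₂ (algebraMap k[X] L) θ a) < 1 ↔ ¬ Ev 𝔓 x) := by
  obtain ⟨h0, h1⟩ := cls_ne (K := K) hπs hπ hQ hI h hsq ht hs hab hw hov
  rw [ev_mul 𝔓 hx h0, h1]
  tauto

/-- existence of an adapted factorisation -/
theorem adp_ex (hπs : Function.Surjective π)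
    (hπ : ∀ c, π c = 0 ↔ Q ∣ c) (hQ : Irreducible Q)
    (hI : S_INT) (h : IsGen g K f θ) (hsq : Squarefree (dsc g f)) (ht : algebraMap O L t = θ)
    (hs : Squarefree (f.map π)) {P : κ[X] → HeightOneSpectrum O}
    (hP : ∀ φ ∈ fs (f.map π), PF t Q π (P φ) φ) {x : L} (hx : x ≠ 0)
    (hn : IsSquare (Algebra.norm K x)) :
    ∃ a b : k[X][X], Adp O f θ Q x a b ∧
      a.natDegree = ∑ φ ∈ (fs (f.map π)).filter (fun φ => ¬ Ev (P φ) x), φ.natDegree := by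
  have hm := h.mon.map π
  have hf0 := hm.ne_zero
  have hmon : ∀ φ ∈ fs (f.map π), φ.Monic := fun φ hφ => ((mem_fs hf0).1 hφ).1
  obtain ⟨a, ha, haa, had⟩ := Run7.h779.TG.lift_monic hπs
    (monic_prod_of_monic ((fs (f.map π)).filter (fun φ => ¬ Ev (P φ) x)) (fun φ : κ[X] => φ)
      (fun φ hφ => hmon φ (Finset.mem_filter.1 hφ).1))
  obtain ⟨b, hb, hbb, -⟩ := Run7.h779.TG.lift_monic hπs
    (monic_prod_of_monic ((fs (f.map π)).filter (fun φ => ¬ ¬ Ev (P φ) x)) (fun φ : κ[X] => φ)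
      (fun φ hφ => hmon φ (Finset.mem_filter.1 hφ).1))
  have hab : ∀ j, Q ∣ (f - a * b).coeff j := by
    apply (map_eq_iff hπ).1
    rw [Polynomial.map_mul, haa, hbb, Finset.prod_filter_mul_prod_filter_not, fs_prod hm hs]
  have hodd : ∀ 𝔓 : HeightOneSpectrum O, Ov Q 𝔓 →
      (𝔓.valuation L (eval₂ (algebraMap k[X] L) θ a) < 1 ↔ ¬ Ev 𝔓 x) := by
    intro 𝔓 hov
    obtain ⟨φ, hφ, h3⟩ := prime_fac (K := K) hπs hπ hQ hI h hsq ht hs hov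
    have h4 : P φ = 𝔓 := Run7.h646.TG.PF.uniq (K := K) hI h hsq ht (hP φ hφ) h3
    rw [lt_iff ht h3, haa, ← h4]
    have hirr := ((mem_fs hf0).1 hφ).2.1
    constructor
    · intro hd
      obtain ⟨ψ, hψ, hd⟩ := (hirr.prime.dvd_finset_prod_iff _).1 hd
      obtain ⟨hψ1, hψ2⟩ := Finset.mem_filter.1 hψ
      have : φ = ψ := by
        by_contra hne
        exact hirr.not_isUnit ((fs_coprime hf0 hφ hψ1 hne).isUnit_of_dvd' dvd_rfl hd)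
      rw [this]
      exact hψ2
    · intro hx'
      exact Finset.dvd_prod_of_mem (fun φ : κ[X] => φ) (Finset.mem_filter.2 ⟨hφ, hx'⟩)
  refine ⟨a, b, ⟨ha, hb, ?_, hab, hodd⟩, ?_⟩
  · have hQ1 : ¬ Q ∣ (1 : k[X]) := fun h0 => hQ.not_isUnit (isUnit_of_dvd_one h0)
    obtain ⟨η, e, hη, e1, e2, e3, e4⟩ := eta (K := K) hπs hπ hQ hI h hsq ht hs ha hb hab hQ1
    have he : ¬ Q ∣ ((-1) ^ a.natDegree * e) := by
      intro h0
      rcases hQ.prime.dvd_or_dvd h0 with h1 | h1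
      · have h2 : IsUnit ((-1 : k[X]) ^ a.natDegree) := (isUnit_one.neg).pow _
        exact hQ.not_isUnit (isUnit_of_dvd_unit h1 h2)
      · exact e2 h1
    refine val_parity (K := K) hπs hπ hQ hI h hsq ht hs (mul_ne_zero hx hη) he ?_ ?_
    · obtain ⟨y, hy⟩ := hn
      refine ⟨y * algebraMap k[X] K ((-Q) ^ a.natDegree * e), ?_⟩
      rw [map_mul (Algebra.norm K), e3, hy]
      have e5 : (Q ^ a.natDegree * ((-1) ^ a.natDegree * e)) = (-Q) ^ a.natDegree * e := by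
        rw [neg_pow Q]
        ring
      rw [e5]
      ring
    · intro 𝔓 hov
      obtain ⟨h0, h1⟩ := cls_ne (K := K) hπs hπ hQ hI h hsq ht hs hab hQ1 hov
      have h2 := (ev_mul 𝔓 hη h0).1 (Sq1.ev 𝔓 (e4 𝔓 hov))
      rw [ev_mul 𝔓 hx hη, h2, h1, hodd 𝔓 hov, not_not]
  · rw [had]
    exact natDegree_prod_of_monic _ _ (fun φ hφ => hmon φ (Finset.mem_filter.1 hφ).1)

/-- parity of the number of the nonsquares -/
theorem adp_parity [Finite κ] (h2 : (2 : κ) ≠ 0) (hπs : Function.Surjective π)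
    (hπ : ∀ c, π c = 0 ↔ Q ∣ c) (hQ : Irreducible Q)
    (hI : S_INT) (h : IsGen g K f θ) (hsq : Squarefree (dsc g f)) (ht : algebraMap O L t = θ)
    (hs : Squarefree (f.map π)) {w : k[X]} (hw : ¬ Q ∣ w) {x : L} (hx : x ≠ 0)
    (hn : IsSquare (Algebra.norm K x)) {a b : k[X][X]} (hA : Adp O f θ Q x a b) :
    Even {𝔓 : HeightOneSpectrum O | Ov Q 𝔓 ∧ ¬ Sq1 𝔓 (x * cls θ (Q * w) 𝔓 a b)}.ncard := by
  obtain ⟨η, e, hη, e1, e2, e3, e4⟩ :=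
    eta (K := K) hπs hπ hQ hI h hsq ht hs hA.am hA.bm hA.cong hw
  obtain ⟨m, hm⟩ := hA.ae
  have h1 := parity' (K := K) (O := O) h2 hπs hπ hQ hI h hsq ht hs (mul_ne_zero hx hη) e2
    (by rw [e1, hm]; exact ⟨π w ^ m, by rw [pow_add]⟩)
    (by
      obtain ⟨y, hy⟩ := hn
      refine ⟨y * algebraMap k[X] K ((-Q) ^ m * e), ?_⟩
      rw [map_mul (Algebra.norm K), e3, hy, hm, pow_add]
      simp only [map_mul, map_pow]
      ring)
    (by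
      intro 𝔓 hov
      obtain ⟨h0, h1⟩ := cls_ne (K := K) hπs hπ hQ hI h hsq ht hs hA.cong hw hov
      have h2 := (ev_mul 𝔓 hη h0).1 (Sq1.ev 𝔓 (e4 𝔓 hov))
      rw [ev_mul 𝔓 hx hη, h2, h1, hA.odd 𝔓 hov, not_not])
  have h3 : {𝔓 : HeightOneSpectrum O | Ov Q 𝔓 ∧ ¬ Sq1 𝔓 (x * cls θ (Q * w) 𝔓 a b)} =
      {𝔓 : HeightOneSpectrum O | Ov Q 𝔓 ∧ ¬ Sq1 𝔓 (x * η)} := by
    ext 𝔓
    simp only [Set.mem_setOf_eq]
    refine and_congr_right fun hov => not_congr ?_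
    obtain ⟨h0, -⟩ := cls_ne (K := K) hπs hπ hQ hI h hsq ht hs hA.cong hw hov
    constructor
    · intro h5
      have h6 := Sq1.mul 𝔓 h5 (e4 𝔓 hov)
      have e5 : x * cls θ (Q * w) 𝔓 a b * (η * cls θ (Q * w) 𝔓 a b) =
          x * η * cls θ (Q * w) 𝔓 a b ^ 2 := by ring
      rwa [e5, sq1_mul_sq 𝔓 h0] at h6
    · intro h5
      have h6 := Sq1.mul 𝔓 h5 (e4 𝔓 hov)
      have e5 : x * η * (η * cls θ (Q * w) 𝔓 a b) =
          x * cls θ (Q * w) 𝔓 a b * η ^ 2 := by ring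
      rwa [e5, sq1_mul_sq 𝔓 hη] at h6
  rw [h3]
  exact h1

/-- the local condition in terms of adapted factorisations -/
theorem locW_iff (hπs : Function.Surjective π)
    (hπ : ∀ c, π c = 0 ↔ Q ∣ c) (hQ : Irreducible Q)
    (hI : S_INT) (h : IsGen g K f θ) (hsq : Squarefree (dsc g f)) (ht : algebraMap O L t = θ)
    (hs : Squarefree (f.map π)) {w : k[X]} (hw : ¬ Q ∣ w) {x : L} (hx : x ≠ 0) :
    LocW O f θ Q (Q * w) x ↔ ∃ a b : k[X][X], Adp O f θ Q x a b ∧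
      ∀ 𝔓 : HeightOneSpectrum O, Ov Q 𝔓 → Sq1 𝔓 (x * cls θ (Q * w) 𝔓 a b) := by
  constructor
  · rintro ⟨a, b, ha, hb, hae, hab, hcl⟩
    have h1 : ∀ 𝔓 : HeightOneSpectrum O, Ov Q 𝔓 → Sq1 𝔓 (x * cls θ (Q * w) 𝔓 a b) := by
      intro 𝔓 hov
      rcases cls_dich (K := K) hπs hπ hQ hI h hsq ht hs hab hw hov with
        ⟨h1, h2, h3, h4, h5⟩ | ⟨h1, h2, h3, h4⟩
      · rw [h3]
        exact (hcl 𝔓 hov).1 h1
      · rw [h3]
        exact (hcl 𝔓 hov).2 h1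
    exact ⟨a, b, ⟨ha, hb, hae, hab, fun 𝔓 hov =>
      (ev_cls (K := K) hπs hπ hQ hI h hsq ht hs hab hw hx hov).1 (Sq1.ev 𝔓 (h1 𝔓 hov))⟩, h1⟩
  · rintro ⟨a, b, hA, h1⟩
    refine ⟨a, b, hA.am, hA.bm, hA.ae, hA.cong, fun 𝔓 hov => ?_⟩
    have h6 := h1 𝔓 hov
    rcases cls_dich (K := K) hπs hπ hQ hI h hsq ht hs hA.cong hw hov with
      ⟨h1, h2, h3, h4, h5⟩ | ⟨h1, h2, h3, h4⟩
    · rw [h3] at h6
      exact ⟨fun _ => h6, fun h7 => absurd h7 h1.ne⟩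
    · rw [h3] at h6
      exact ⟨fun h7 => absurd h7 h2, fun _ => h6⟩

/-- the product of the three classes is a square -/
theorem adp_mul [Finite k] (hπs : Function.Surjective π)
    (hπ : ∀ c, π c = 0 ↔ Q ∣ c) (hQ : Irreducible Q)
    (hI : S_INT) (h : IsGen g K f θ) (hsq : Squarefree (dsc g f)) (ht : algebraMap O L t = θ)
    (hs : Squarefree (f.map π)) {w : k[X]} (hw : ¬ Q ∣ w) {x y : L} (hx : x ≠ 0) (hy : y ≠ 0)
    {a b a' b' a'' b'' : k[X][X]} (hA : Adp O f θ Q x a b) (hB : Adp O f θ Q y a' b')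
    (hC : Adp O f θ Q (x * y) a'' b'') {𝔓 : HeightOneSpectrum O} (hov : Ov Q 𝔓) :
    Sq1 𝔓 (x * y * cls θ (Q * w) 𝔓 a'' b'') ↔
      (Sq1 𝔓 (x * cls θ (Q * w) 𝔓 a b) ↔ Sq1 𝔓 (y * cls θ (Q * w) 𝔓 a' b')) := by
  have hfin := Run7.h225.TS.Ovr.fin_ov (K := K) (L := L) (O := O) hQ.ne_zero
  obtain ⟨bas, -⟩ := Pool.Agent.N227.PJ.exists_bas (O := O) h (hI g k K L f θ h hsq) ht
  haveI : Module.Finite k[X] O := Module.Finite.of_basis bas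
  haveI : Finite (O ⧸ 𝔓.asIdeal) := Pool.Agent.N539.PP.finite_residue hQ hov
  have hex : ∀ {a b : k[X][X]}, (∀ j, Q ∣ (f - a * b).coeff j) →
      ∃ z : L, z ≠ 0 ∧ ∀ 𝔓 : HeightOneSpectrum O, Ov Q 𝔓 →
        Sq1 𝔓 (z * cls θ (Q * w) 𝔓 a b) := by
    intro a b hab
    obtain ⟨z, hz⟩ := Run7.h225.TS.Ovr.approx hfin (fun 𝔓 => cls θ (Q * w) 𝔓 a b)
      (fun 𝔓 h𝔓 => (cls_ne (K := K) hπs hπ hQ hI h hsq ht hs hab hw h𝔓).1)
    have h1 : ∀ 𝔓 : HeightOneSpectrum O, Ov Q 𝔓 → Sq1 𝔓 (z * cls θ (Q * w) 𝔓 a b) := by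
      intro 𝔓 h𝔓
      have h0 := (cls_ne (K := K) hπs hπ hQ hI h hsq ht hs hab hw h𝔓).1
      apply sq1_of_lt (s := cls θ (Q * w) 𝔓 a b)
      have e : z * cls θ (Q * w) 𝔓 a b - cls θ (Q * w) 𝔓 a b ^ 2 =
          (z - cls θ (Q * w) 𝔓 a b) * cls θ (Q * w) 𝔓 a b := by ring
      rw [e, map_mul, map_pow, sq]
      exact mul_lt_mul_of_pos_right (hz 𝔓 h𝔓) (zero_lt_iff.2 ((Valuation.ne_zero_iff _).2 h0))
    refine ⟨z, ?_, h1⟩
    rintro rfl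
    obtain ⟨s, hs'⟩ := h1 𝔓 hov
    rw [zero_mul, map_zero] at hs'
    exact absurd hs' not_lt_zero'
  obtain ⟨z, hz0, hz⟩ := hex hA.cong
  obtain ⟨z', hz0', hz'⟩ := hex hB.cong
  have hzev : ∀ {x z : L} {a b : k[X][X]}, x ≠ 0 → z ≠ 0 → Adp O f θ Q x a b →
      (∀ 𝔓 : HeightOneSpectrum O, Ov Q 𝔓 → Sq1 𝔓 (z * cls θ (Q * w) 𝔓 a b)) →
      ∀ 𝔓 : HeightOneSpectrum O, Ov Q 𝔓 → (Ev 𝔓 z ↔ Ev 𝔓 x) := by
    intro x z a b hx hz0 hA hz 𝔓 h𝔓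
    have h1 := (ev_cls (K := K) hπs hπ hQ hI h hsq ht hs hA.cong hw hz0 h𝔓).1
      (Sq1.ev 𝔓 (hz 𝔓 h𝔓))
    rw [hA.odd 𝔓 h𝔓] at h1
    tauto
  have hAz : Adp O f θ Q z a b := ⟨hA.am, hA.bm, hA.ae, hA.cong, fun 𝔓 h𝔓 => by
    rw [hA.odd 𝔓 h𝔓, hzev hx hz0 hA hz 𝔓 h𝔓]⟩
  have hBz : Adp O f θ Q z' a' b' := ⟨hB.am, hB.bm, hB.ae, hB.cong, fun 𝔓 h𝔓 => by
    rw [hB.odd 𝔓 h𝔓, hzev hy hz0' hB hz' 𝔓 h𝔓]⟩
  have hD : Q * w ≠ 0 := mul_ne_zero hQ.ne_zero (by rintro rfl; exact hw (dvd_zero _))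
  have h2 : Run7.h779.TG.Two O f θ Q := by
    intro a b ha hb hab 𝔓 hov
    obtain ⟨φ, hφ, h3⟩ := prime_fac (K := K) hπs hπ hQ hI h hsq ht hs hov
    exact one_of hπs hπ h ht hs hab hφ h3
  have hl := Run7.h779.TG.locW_mul (K := K) h hQ h2 hD hz0 hz0'
    ((locW_iff (K := K) hπs hπ hQ hI h hsq ht hs hw hz0).2 ⟨a, b, hAz, hz⟩)
    ((locW_iff (K := K) hπs hπ hQ hI h hsq ht hs hw hz0').2 ⟨a', b', hBz, hz'⟩)
  obtain ⟨a₀, b₀, hC0, hc0⟩ :=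
    (locW_iff (K := K) hπs hπ hQ hI h hsq ht hs hw (mul_ne_zero hz0 hz0')).1 hl
  obtain ⟨ea, eb⟩ := uniq_ab (K := K) (O := O) hπs hπ hQ hI h hsq ht hs hC0.am hC.am hC0.cong
    hC.cong (fun 𝔓 h𝔓 => by
      rw [hC0.odd 𝔓 h𝔓, hC.odd 𝔓 h𝔓, ev_mul 𝔓 hx hy, ev_mul 𝔓 hz0 hz0',
        hzev hx hz0 hA hz 𝔓 h𝔓, hzev hy hz0' hB hz' 𝔓 h𝔓])
  have hc := cls_cong (K := K) hπs hπ hQ hI h hsq ht hs hC0.cong hw ea eb hov
    (mul_ne_zero hz0 hz0') (hc0 𝔓 hov)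
  have n1 := (cls_ne (K := K) hπs hπ hQ hI h hsq ht hs hA.cong hw hov).1
  have n2 := (cls_ne (K := K) hπs hπ hQ hI h hsq ht hs hB.cong hw hov).1
  have n3 := (cls_ne (K := K) hπs hπ hQ hI h hsq ht hs hC.cong hw hov).1
  have v1 := (ev_cls (K := K) hπs hπ hQ hI h hsq ht hs hA.cong hw hx hov).2 (hA.odd 𝔓 hov)
  have v2 := (ev_cls (K := K) hπs hπ hQ hI h hsq ht hs hB.cong hw hy hov).2 (hB.odd 𝔓 hov)
  rw [← sq1_mul_iff 𝔓 (mul_ne_zero hx n1) (mul_ne_zero hy n2) v1 v2]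
  -- the product of the three classes
  have k1 := Sq1.mul 𝔓 (Sq1.mul 𝔓 (hz 𝔓 hov) (hz' 𝔓 hov)) hc
  have e1 : z * cls θ (Q * w) 𝔓 a b * (z' * cls θ (Q * w) 𝔓 a' b') *
      (z * z' * cls θ (Q * w) 𝔓 a'' b'') =
      (cls θ (Q * w) 𝔓 a b * cls θ (Q * w) 𝔓 a' b' * cls θ (Q * w) 𝔓 a'' b'') *
        (z * z') ^ 2 := by ring
  rw [e1, sq1_mul_sq 𝔓 (mul_ne_zero hz0 hz0')] at k1
  constructor
  · intro h5
    have h6 := Sq1.mul 𝔓 h5 k1
    have e2 : x * y * cls θ (Q * w) 𝔓 a'' b'' *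
        (cls θ (Q * w) 𝔓 a b * cls θ (Q * w) 𝔓 a' b' * cls θ (Q * w) 𝔓 a'' b'') =
        x * cls θ (Q * w) 𝔓 a b * (y * cls θ (Q * w) 𝔓 a' b') *
          cls θ (Q * w) 𝔓 a'' b'' ^ 2 := by ring
    rwa [e2, sq1_mul_sq 𝔓 n3] at h6
  · intro h5
    have h6 := Sq1.mul 𝔓 h5 k1
    have e2 : x * cls θ (Q * w) 𝔓 a b * (y * cls θ (Q * w) 𝔓 a' b') *
        (cls θ (Q * w) 𝔓 a b * cls θ (Q * w) 𝔓 a' b' * cls θ (Q * w) 𝔓 a'' b'') =
        x * y * cls θ (Q * w) 𝔓 a'' b'' *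
          (cls θ (Q * w) 𝔓 a b * cls θ (Q * w) 𝔓 a' b') ^ 2 := by ring
    rwa [e2, sq1_mul_sq 𝔓 (mul_ne_zero n1 n2)] at h6

/-- the residue degrees -/
theorem degs (hπs : Function.Surjective π)
    (hπ : ∀ c, π c = 0 ↔ Q ∣ c) (hQ : Irreducible Q)
    (hI : S_INT) (h : IsGen g K f θ) (hsq : Squarefree (dsc g f)) (ht : algebraMap O L t = θ)
    (hs : Squarefree (f.map π)) {P : κ[X] → HeightOneSpectrum O}
    (hP : ∀ φ ∈ fs (f.map π), PF t Q π (P φ) φ) :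
    ∃ c : HeightOneSpectrum O → ℕ, ∀ R : HeightOneSpectrum O → Prop,
      ∑ᶠ 𝔓 ∈ {𝔓 : HeightOneSpectrum O | Ov Q 𝔓 ∧ R 𝔓}, c 𝔓 =
        ∑ φ ∈ (fs (f.map π)).filter (fun φ => R (P φ)), φ.natDegree := by
  have hf0 := (h.mon.map π).ne_zero
  have hD : ∀ 𝔓 : HeightOneSpectrum O, ∃ φ : κ[X], Ov Q 𝔓 → φ ∈ fs (f.map π) ∧ PF t Q π 𝔓 φ := by
    intro 𝔓
    by_cases hov : Ov Q 𝔓
    · obtain ⟨φ, hφ, h3⟩ := prime_fac (K := K) hπs hπ hQ hI h hsq ht hs hov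
      exact ⟨φ, fun _ => ⟨hφ, h3⟩⟩
    · exact ⟨0, fun h' => absurd h' hov⟩
  choose D hD using hD
  have hDP : ∀ φ ∈ fs (f.map π), D (P φ) = φ := by
    intro φ hφ
    obtain ⟨h1, h2⟩ := hD (P φ) (hP φ hφ).ov
    exact Run7.h646.TG.PF.inj hπs hf0 h1 hφ h2 (hP φ hφ)
  refine ⟨fun 𝔓 => (D 𝔓).natDegree, fun R => ?_⟩
  have hset : {𝔓 : HeightOneSpectrum O | Ov Q 𝔓 ∧ R 𝔓} =
      P '' (((fs (f.map π)).filter fun φ => R (P φ) : Finset κ[X]) : Set κ[X]) := by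
    ext 𝔓
    simp only [Set.mem_setOf_eq, Set.mem_image, Finset.mem_coe, Finset.mem_filter]
    constructor
    · rintro ⟨hov, hR⟩
      obtain ⟨h1, h2⟩ := hD 𝔓 hov
      have h3 := Run7.h646.TG.PF.uniq (K := K) hI h hsq ht (hP _ h1) h2
      exact ⟨D 𝔓, ⟨h1, by rw [h3]; exact hR⟩, h3⟩
    · rintro ⟨φ, ⟨hφ, h3⟩, rfl⟩
      exact ⟨(hP φ hφ).ov, h3⟩
  rw [hset, finsum_mem_image, finsum_mem_coe_finset]
  · refine Finset.sum_congr rfl fun φ hφ => ?_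
    rw [hDP φ (Finset.mem_filter.1 hφ).1]
  · intro φ hφ ψ hψ he
    have hφ' := (Finset.mem_filter.1 hφ).1
    have hψ' := (Finset.mem_filter.1 hψ).1
    rw [← hDP φ hφ', ← hDP ψ hψ', he]

end main

/-- **ADP.** -/
theorem T_ADP : P_ADP := by
  intro k K L O _ _ _ _ _ _ _ _ _ _ _ _ _ _ _ _ g N r f θ hF h Q hQm hQ hd w hw
  have hI : S_INT := Pool.Agent.N769.PJ.int
  have hsq : Squarefree (dsc g f) := hF.fam.sq
  have hmax : (Ideal.span {Q} : Ideal k[X]).IsMaximal :=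
    PrincipalIdealRing.isMaximal_of_irreducible hQ
  letI i1 : Field (k[X] ⧸ Ideal.span {Q}) := Ideal.Quotient.field _
  obtain ⟨t, ht⟩ := theta_ex O h
  set π : k[X] →+* k[X] ⧸ Ideal.span {Q} := Ideal.Quotient.mk (Ideal.span {Q}) with hπd
  have hπs : Function.Surjective π := Ideal.Quotient.mk_surjective
  have hπ : ∀ c, π c = 0 ↔ Q ∣ c := fun c => by
    rw [hπd, Ideal.Quotient.eq_zero_iff_mem, Ideal.mem_span_singleton]
  have hfinκ : Finite (k[X] ⧸ Ideal.span {Q}) := by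
    have hd1 : Module.finrank k (k[X] ⧸ Ideal.span {Q}) = Q.natDegree :=
      finrank_quotient_span_eq_natDegree
    have f1 : Module.Finite k (k[X] ⧸ Ideal.span {Q}) :=
      Module.finite_of_finrank_pos (by rw [hd1]; exact hQ.natDegree_pos)
    exact Module.finite_of_finite k
  have h2 : (2 : k[X] ⧸ Ideal.span {Q}) ≠ 0 := by
    intro h0
    have h1 : π (C 2) = 0 := by
      rw [show (C 2 : k[X]) = 2 from rfl, map_ofNat]
      exact h0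
    rw [hπ] at h1
    have h3 : IsUnit (C (2 : k)) := isUnit_C.2 (IsUnit.mk0 _ hF.two)
    exact hQ.not_isUnit (isUnit_of_dvd_unit h1 h3)
  have hs : Squarefree (f.map π) := red_sqf hπ h.mon h.deg hF.g1 hd
  obtain ⟨φ₀, hφ₀⟩ := fs_nonempty (h.mon.map π) (by rw [h.mon.natDegree_map, h.deg]; omega)
  obtain ⟨𝔓₀, h𝔓₀⟩ := ex_prime (K := K) hπs hπ hQ hI h hsq ht hφ₀
  have hP : ∀ φ : (k[X] ⧸ Ideal.span {Q})[X], ∃ 𝔓 : HeightOneSpectrum O,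
      φ ∈ fs (f.map π) → PF t Q π 𝔓 φ := by
    intro φ
    by_cases hφ : φ ∈ fs (f.map π)
    · obtain ⟨𝔓, h𝔓⟩ := ex_prime (K := K) hπs hπ hQ hI h hsq ht hφ
      exact ⟨𝔓, fun _ => h𝔓⟩
    · exact ⟨𝔓₀, fun h' => absurd h' hφ⟩
  choose P hP using hP
  refine ⟨?_, ?_, ?_, ?_, ?_⟩
  · intro x hx hn
    obtain ⟨a, b, hA, -⟩ := adp_ex (K := K) hπs hπ hQ hI h hsq ht hs hP hx hn
    exact ⟨a, b, hA⟩
  · intro x a b hx hn hA
    exact ⟨fun 𝔓 hov => (ev_cls (K := K) hπs hπ hQ hI h hsq ht hs hA.cong hw hx hov).2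
      (hA.odd 𝔓 hov), adp_parity (K := K) h2 hπs hπ hQ hI h hsq ht hs hw hx hn hA⟩
  · intro x y a b a' b' a'' b'' hx hy hA hB hC 𝔓 hov
    exact adp_mul (K := K) hπs hπ hQ hI h hsq ht hs hw hx hy hA hB hC hov
  · intro x hx
    exact locW_iff (K := K) hπs hπ hQ hI h hsq ht hs hw hx
  · obtain ⟨c, hc⟩ := degs (K := K) (O := O) hπs hπ hQ hI h hsq ht hs hP
    refine ⟨c, ?_, ?_⟩
    · have h1 := hc (fun _ => True)
      simp only [and_true, Finset.filter_true] at h1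
      rw [h1]
      have h3 := natDegree_prod_of_monic (fs (f.map π)) (fun φ => φ)
        (fun φ hφ => ((mem_fs (h.mon.map π).ne_zero).1 hφ).1)
      rw [fs_prod (h.mon.map π) hs, h.mon.natDegree_map, h.deg] at h3
      exact h3.symm
    · intro x hx hn
      obtain ⟨a, b, hA, had⟩ := adp_ex (K := K) hπs hπ hQ hI h hsq ht hs hP hx hn
      rw [hc (fun 𝔓 => ¬ Ev 𝔓 x)]
      have h7 : ∀ s t : Finset (k[X] ⧸ Ideal.span {Q})[X], (∀ φ, φ ∈ s ↔ φ ∈ t) →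
          Even (∑ φ ∈ s, φ.natDegree) → Even (∑ φ ∈ t, φ.natDegree) := by
        intro s t hst h8
        rwa [Finset.ext hst] at h8
      refine h7 _ _ (fun φ => ?_) (had ▸ hA.ae)
      simp only [Finset.mem_filter]

end Run7.h847.PL
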