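import Pool.Agent.Run7.h286.PL.Stm
import Pool.Agent.Run7.h779.TG.GRP
import Pool.Agent.Run7.h646.TG.LOCQ

/-!
# Project PRL (helper286), piece ADP: adapted factorisations at a prime `Q`, part A

helper847. The norm of a unit at `Q`, the parity of the number of the nonsquares for elements whose
norm is a square up to a square class modulo `Q`, and the modification of a factor of `f` modulo `Q`.
-/

set_option autoImplicit false
set_option linter.all false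

open Polynomial IsDedekindDomain WithZero
open scoped Classical

namespace Run7.h847.PL

open Pool.Agent.N874.PP (Ov Ev Sq1)
open Pool.Agent.N352.PJ (IsGen Crd GoodR Ht dsc S_INT)
open Pool.Agent.N765.PJ (ev ev_L ev_f ev_ker ev_surj ex_poly ev_CQ theta_ex val_one)
open Pool.Agent.N862.PP (sq1_mul_sq not_ev_of_exp ev_mul_sq)
open Run7.h784.TG (Fm LocW)
open Run7.h646.TG (fs mem_fs fs_coprime fs_prod fs_dvd fs_nonempty PF ex_prime prime_fac
  map_eq_iff dvd_of_map red_sqf one_of unram even_nonsq sq1_unit)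

section sq

variable {k K : Type} [Field k] [Field K] [Algebra k[X] K] [IsFractionRing k[X] K]

/-- a polynomial which is a square in the fraction field is a square -/
theorem sq_of_K {a : k[X]} (ha : IsSquare (algebraMap k[X] K a)) : IsSquare a := by
  obtain ⟨r, hr⟩ := ha
  have hint : IsIntegral k[X] r := by
    refine IsIntegral.of_pow (n := 2) (by norm_num) ?_
    rw [sq, ← hr]
    exact isIntegral_algebraMap
  obtain ⟨m, rfl⟩ := IsIntegrallyClosed.isIntegral_iff.mp hint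
  rw [← map_mul] at hr
  exact ⟨m, IsFractionRing.injective k[X] K hr⟩

theorem even_of_sq {Q : k[X]} (hQ : Irreducible Q) : ∀ (j : ℕ) (R m : k[X]), ¬ Q ∣ R →
    Q ^ j * R = m * m → Even j := by
  intro j
  induction j using Nat.strong_induction_on with
  | _ j ih =>
    intro R m hR hm
    rcases j with _ | _ | j
    · exact Even.zero
    · exfalso
      have h1 : Q ∣ m := by
        have : Q ∣ m * m := by
          rw [← hm]
          exact ⟨R, by ring⟩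
        rcases hQ.prime.dvd_or_dvd this with h2 | h2 <;> exact h2
      obtain ⟨m', rfl⟩ := h1
      apply hR
      refine ⟨m' * m', ?_⟩
      apply mul_left_cancel₀ hQ.ne_zero
      linear_combination hm
    · have h1 : Q ∣ m := by
        have : Q ∣ m * m := by
          rw [← hm]
          exact ⟨Q ^ (j + 1) * R, by ring⟩
        rcases hQ.prime.dvd_or_dvd this with h2 | h2 <;> exact h2
      obtain ⟨m', rfl⟩ := h1
      have h3 : Q ^ j * R = m' * m' := by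
        apply mul_left_cancel₀ (pow_ne_zero 2 hQ.ne_zero)
        linear_combination hm
      have h4 := ih j (by omega) R m' hR h3
      exact h4.add (by decide : Even 2)

end sq

section main

variable {k K L O : Type} [Field k] [Field K] [Algebra k[X] K] [IsFractionRing k[X] K]
  [Field L] [Algebra K L] [Algebra k[X] L] [IsScalarTower k[X] K L] [CommRing O]
  [IsDedekindDomain O] [Algebra O L] [IsFractionRing O L] [Algebra k[X] O]
  [IsScalarTower k[X] O L] [IsIntegralClosure O k[X] L] {g : ℕ} {f : k[X][X]} {θ : L}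
  {Q : k[X]} {κ : Type} [Field κ] {π : k[X] →+* κ} {t : O}

/-- an even element is a unit times a square at all primes over `Q` -/
theorem unit_rep (hπs : Function.Surjective π)
    (hπ : ∀ c, π c = 0 ↔ Q ∣ c) (hQ : Irreducible Q)
    (hI : S_INT) (h : IsGen g K f θ) (hsq : Squarefree (dsc g f)) (ht : algebraMap O L t = θ)
    (hs : Squarefree (f.map π)) {s : L} (hs0 : s ≠ 0)
    (hev : ∀ 𝔓 : HeightOneSpectrum O, Ov Q 𝔓 → Ev 𝔓 s) :
    ∃ (p : k[X][X]) (γ : L), γ ≠ 0 ∧ p.natDegree ≤ 2 * g ∧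
      algebraMap O L (ev t p) = s * γ ^ 2 ∧
      (∀ 𝔓 : HeightOneSpectrum O, Ov Q 𝔓 → ev t p ∉ 𝔓.asIdeal) ∧
      algebraMap k[X] K (f.resultant p (2 * g + 1) (2 * g)) =
        Algebra.norm K s * (Algebra.norm K γ) ^ 2 := by
  have hfin := Run7.h225.TS.Ovr.fin_ov (K := K) (L := L) (O := O) hQ.ne_zero
  have hfd : FiniteDimensional K L := Pool.Agent.N227.PJ.fd h
  have hy : ∀ 𝔓 : HeightOneSpectrum O, ∃ y : L, Ov Q 𝔓 → y ≠ 0 ∧ 𝔓.valuation L s = 𝔓.valuation L y ^ 2 := by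
    intro 𝔓
    by_cases hov : Ov Q 𝔓
    · obtain ⟨y, hy⟩ := hev 𝔓 hov
      refine ⟨y, fun _ => ⟨?_, hy⟩⟩
      rintro rfl
      rw [map_zero, zero_pow two_ne_zero] at hy
      exact hs0 ((Valuation.zero_iff _).1 hy)
    · exact ⟨0, fun h' => absurd h' hov⟩
  choose y hy using hy
  obtain ⟨β, hβ⟩ := Run7.h225.TS.Ovr.approx hfin y (fun 𝔓 h𝔓 => (hy 𝔓 h𝔓).1)
  have hvβ : ∀ 𝔓 : HeightOneSpectrum O, Ov Q 𝔓 → 𝔓.valuation L β = 𝔓.valuation L (y 𝔓) := by
    intro 𝔓 h𝔓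
    have e : β = y 𝔓 + (β - y 𝔓) := by ring
    rw [e]
    exact Valuation.map_add_eq_of_lt_left _ (hβ 𝔓 h𝔓)
  obtain ⟨φ₀, hφ₀⟩ := fs_nonempty (h.mon.map π) (by rw [h.mon.natDegree_map, h.deg]; omega)
  obtain ⟨𝔓₀, h𝔓₀⟩ := ex_prime (K := K) hπs hπ hQ hI h hsq ht hφ₀
  have hβ0 : β ≠ 0 := by
    rintro rfl
    have h1 := hvβ 𝔓₀ h𝔓₀.ov
    rw [map_zero] at h1
    exact (hy 𝔓₀ h𝔓₀.ov).1 ((Valuation.zero_iff _).1 h1.symm)
  have hv1 : ∀ 𝔓 : HeightOneSpectrum O, Ov Q 𝔓 → 𝔓.valuation L (s * (β⁻¹) ^ 2) = 1 := by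
    intro 𝔓 h𝔓
    have h3 : 𝔓.valuation L (y 𝔓) ≠ 0 := (Valuation.ne_zero_iff _).2 (hy 𝔓 h𝔓).1
    rw [map_mul, map_pow, map_inv₀, hvβ 𝔓 h𝔓, (hy 𝔓 h𝔓).2, inv_pow, mul_inv_cancel₀ (pow_ne_zero 2 h3)]
  obtain ⟨c, z, hc, hz⟩ := Pool.Agent.N227.PJ.exists_den_Q (K := K) h ht hQ (s * (β⁻¹) ^ 2)
    (fun 𝔓 h𝔓 => (hv1 𝔓 h𝔓).le)
  have hc0 : algebraMap k[X] L c ≠ 0 := by
    intro h0
    have : c = 0 := Pool.Agent.N765.PJ.inj_L (L := L) K (by rw [h0, map_zero])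
    exact hc (by rw [this]; exact dvd_zero _)
  have hvc : ∀ 𝔮 : HeightOneSpectrum O, Ov Q 𝔮 → 𝔮.valuation L (algebraMap k[X] L c) = 1 := by
    intro 𝔮 h𝔮
    rw [← Pool.Agent.N765.PJ.mapO (O := O)]
    exact 𝔮.valuation_eq_one_iff_notMem.mpr fun h3 => hc ((Pool.Agent.N765.PJ.ov_iff hQ h𝔮 c).1 h3)
  have hw : algebraMap O L (algebraMap k[X] O c * z) = s * (algebraMap k[X] L c * β⁻¹) ^ 2 := by
    rw [map_mul, Pool.Agent.N765.PJ.mapO, ← hz]
    ring
  have hcβ : algebraMap k[X] L c * β⁻¹ ≠ 0 := mul_ne_zero hc0 (inv_ne_zero hβ0)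
  obtain ⟨p, hpd, hp⟩ := ex_poly (K := K) hI h hsq ht (algebraMap k[X] O c * z)
  rw [← hp] at hw
  have hwn : ∀ 𝔓 : HeightOneSpectrum O, Ov Q 𝔓 → ev t p ∉ 𝔓.asIdeal := by
    intro 𝔓 h𝔓 hmem
    have h3 : 𝔓.valuation L (algebraMap O L (ev t p)) < 1 := (𝔓.valuation_lt_one_iff_mem _).mpr hmem
    have h4 : algebraMap O L (ev t p) = algebraMap k[X] L c ^ 2 * (s * (β⁻¹) ^ 2) := by
      rw [hw]; ring
    rw [h4, map_mul, map_pow, hvc 𝔓 h𝔓, hv1 𝔓 h𝔓, one_pow, one_mul] at h3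
    exact lt_irrefl _ h3
  have hpn : p.natDegree ≤ 2 * g := by
    by_cases hp0 : p = 0
    · rw [hp0]; simp
    · have := (natDegree_lt_iff_degree_lt hp0).2 hpd
      omega
  have h3 := Pool.Agent.N769.PJ.nrm h hsq.ne_zero (p.map (algebraMap k[X] K)) (2 * g)
    (natDegree_map_le.trans hpn)
  rw [resultant_map_map, aeval_map_algebraMap, aeval_def, ← ev_L ht, hw, map_mul, map_pow] at h3
  exact ⟨p, _, hcβ, hpn, hw, hwn, h3.symm⟩

/-- the resultant of the unit is prime to `Q` -/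
theorem res_ne (hπs : Function.Surjective π)
    (hπ : ∀ c, π c = 0 ↔ Q ∣ c) (hQ : Irreducible Q)
    (hI : S_INT) (h : IsGen g K f θ) (hsq : Squarefree (dsc g f)) (ht : algebraMap O L t = θ)
    {p : k[X][X]} (hpn : p.natDegree ≤ 2 * g)
    (hwn : ∀ 𝔓 : HeightOneSpectrum O, Ov Q 𝔓 → ev t p ∉ 𝔓.asIdeal) :
    (∀ φ ∈ fs (f.map π), ¬ φ ∣ p.map π) ∧
      π (f.resultant p (2 * g + 1) (2 * g)) ≠ 0 := by
  have hnd : ∀ φ ∈ fs (f.map π), ¬ φ ∣ p.map π := by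
    intro φ hφ hdv
    obtain ⟨𝔓, h𝔓⟩ := ex_prime (K := K) hπs hπ hQ hI h hsq ht hφ
    exact hwn 𝔓 h𝔓.ov ((h𝔓.mem p).2 hdv)
  refine ⟨hnd, ?_⟩
  have hm := h.mon.map π
  have hfd' : (f.map π).natDegree = 2 * g + 1 := by rw [h.mon.natDegree_map, h.deg]
  have hco : IsCoprime (f.map π) (p.map π) := by
    rw [← EuclideanDomain.gcd_isUnit_iff]
    by_contra hu
    have hg0 : EuclideanDomain.gcd (f.map π) (p.map π) ≠ 0 := by
      intro h0
      rw [EuclideanDomain.gcd_eq_zero_iff] at h0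
      exact hm.ne_zero h0.1
    obtain ⟨ψ, hψ, hd⟩ := WfDvdMonoid.exists_irreducible_factor hu hg0
    have h1 : normalize ψ ∈ fs (f.map π) := by
      refine (mem_fs hm.ne_zero).2 ⟨monic_normalize hψ.ne_zero, ?_, ?_⟩
      · exact (associated_normalize ψ).irreducible hψ
      · exact (normalize_dvd_iff).2 (hd.trans (EuclideanDomain.gcd_dvd_left _ _))
    exact hnd _ h1 ((normalize_dvd_iff).2 (hd.trans (EuclideanDomain.gcd_dvd_right _ _)))
  rw [← resultant_map_map]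
  obtain ⟨m, hm'⟩ := Nat.exists_eq_add_of_le ((natDegree_map_le (f := π) (p := p)).trans hpn)
  have key := resultant_add_right_deg (f.map π) (p.map π) (2 * g + 1) (p.map π).natDegree m le_rfl
  rw [← hm'] at key
  rw [key, ← hfd']
  have hc : (f.map π).coeff (f.map π).natDegree = 1 := hm
  rw [hc, one_pow, one_mul]
  exact resultant_ne_zero _ _ hco

/-- parity of the number of the nonsquares -/
theorem parity' [Finite κ] (h2 : (2 : κ) ≠ 0) (hπs : Function.Surjective π)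
    (hπ : ∀ c, π c = 0 ↔ Q ∣ c) (hQ : Irreducible Q)
    (hI : S_INT) (h : IsGen g K f θ) (hsq : Squarefree (dsc g f)) (ht : algebraMap O L t = θ)
    (hs : Squarefree (f.map π)) {s : L} (hs0 : s ≠ 0) {e : k[X]} (he : ¬ Q ∣ e)
    (he2 : IsSquare (π e)) (hn : IsSquare (Algebra.norm K s * algebraMap k[X] K e))
    (hev : ∀ 𝔓 : HeightOneSpectrum O, Ov Q 𝔓 → Ev 𝔓 s) :
    Even {𝔓 : HeightOneSpectrum O | Ov Q 𝔓 ∧ ¬ Sq1 𝔓 s}.ncard := by
  obtain ⟨p, γ, hγ, hpn, hw, hwn, hN⟩ := unit_rep (K := K) hπs hπ hQ hI h hsq ht hs hs0 hev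
  obtain ⟨hnd, hR0⟩ := res_ne (K := K) hπs hπ hQ hI h hsq ht hpn hwn
  have hfd' : (f.map π).natDegree = 2 * g + 1 := by rw [h.mon.natDegree_map, h.deg]
  have h5 : IsSquare (f.resultant p (2 * g + 1) (2 * g) * e) := by
    apply sq_of_K (K := K)
    rw [map_mul, hN]
    obtain ⟨y, hy⟩ := hn
    exact ⟨y * Algebra.norm K γ, by linear_combination ((Algebra.norm K γ) ^ 2) * hy⟩
  have hres : IsSquare (resultant (f.map π) (p.map π) (f.map π).natDegree (2 * g)) := by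
    rw [hfd', resultant_map_map]
    obtain ⟨m, hm⟩ := h5
    obtain ⟨z, hz⟩ := he2
    have hz0 : z ≠ 0 := by
      rintro rfl
      apply he
      rw [← hπ, hz, mul_zero]
    have h6 := congrArg π hm
    rw [map_mul, map_mul, hz] at h6
    refine ⟨π m * z⁻¹, ?_⟩
    field_simp
    linear_combination h6
  have hE := even_nonsq h2 (h.mon.map π) hs (natDegree_map_le.trans hpn) hnd hres
  obtain ⟨φ₀, hφ₀⟩ := fs_nonempty (h.mon.map π) (by rw [h.mon.natDegree_map, h.deg]; omega)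
  obtain ⟨𝔓₀, h𝔓₀⟩ := ex_prime (K := K) hπs hπ hQ hI h hsq ht hφ₀
  have hP : ∀ φ : κ[X], ∃ 𝔓 : HeightOneSpectrum O, φ ∈ fs (f.map π) → PF t Q π 𝔓 φ := by
    intro φ
    by_cases hφ : φ ∈ fs (f.map π)
    · obtain ⟨𝔓, h𝔓⟩ := ex_prime (K := K) hπs hπ hQ hI h hsq ht hφ
      exact ⟨𝔓, fun _ => h𝔓⟩
    · exact ⟨𝔓₀, fun h' => absurd h' hφ⟩
  choose P hP using hP
  have hkey : ∀ {𝔓 : HeightOneSpectrum O} {φ : κ[X]}, PF t Q π 𝔓 φ →
      (Sq1 𝔓 s ↔ IsSquare (AdjoinRoot.mk φ (p.map π))) := by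
    intro 𝔓 φ h3
    rw [← h3.sq p, ← sq1_unit (L := L) (hwn 𝔓 h3.ov), hw, sq1_mul_sq hγ]
  have hset : {𝔓 : HeightOneSpectrum O | Ov Q 𝔓 ∧ ¬ Sq1 𝔓 s} =
      P '' (((fs (f.map π)).filter fun φ => ¬ IsSquare (AdjoinRoot.mk φ (p.map π)) : Finset κ[X]) :
        Set κ[X]) := by
    ext 𝔓
    simp only [Set.mem_setOf_eq, Set.mem_image, Finset.mem_coe, Finset.mem_filter]
    constructor
    · rintro ⟨hov, hns⟩
      obtain ⟨φ, hφ, h3⟩ := prime_fac (K := K) hπs hπ hQ hI h hsq ht hs hov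
      exact ⟨φ, ⟨hφ, fun h4 => hns ((hkey h3).2 h4)⟩,
        Run7.h646.TG.PF.uniq (K := K) hI h hsq ht (hP φ hφ) h3⟩
    · rintro ⟨φ, ⟨hφ, h3⟩, rfl⟩
      exact ⟨(hP φ hφ).ov, fun h4 => h3 ((hkey (hP φ hφ)).1 h4)⟩
  rw [hset, Set.ncard_image_of_injOn, Set.ncard_coe_finset]
  · exact hE
  · intro φ hφ ψ hψ he
    have hφ' := (Finset.mem_filter.1 hφ).1
    have hψ' := (Finset.mem_filter.1 hψ).1
    have h3 := hP ψ hψ'
    rw [← he] at h3
    exact Run7.h646.TG.PF.inj hπs (h.mon.map π).ne_zero hφ' hψ' (hP φ hφ') h3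

/-- parity of the valuation of the norm -/
theorem val_parity (hπs : Function.Surjective π)
    (hπ : ∀ c, π c = 0 ↔ Q ∣ c) (hQ : Irreducible Q)
    (hI : S_INT) (h : IsGen g K f θ) (hsq : Squarefree (dsc g f)) (ht : algebraMap O L t = θ)
    (hs : Squarefree (f.map π)) {s : L} (hs0 : s ≠ 0) {e : k[X]} (he : ¬ Q ∣ e) {j : ℕ}
    (hn : IsSquare (Algebra.norm K s * algebraMap k[X] K (Q ^ j * e)))
    (hev : ∀ 𝔓 : HeightOneSpectrum O, Ov Q 𝔓 → Ev 𝔓 s) : Even j := by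
  obtain ⟨p, γ, hγ, hpn, hw, hwn, hN⟩ := unit_rep (K := K) hπs hπ hQ hI h hsq ht hs hs0 hev
  obtain ⟨hnd, hR0⟩ := res_ne (K := K) hπs hπ hQ hI h hsq ht hpn hwn
  have h5 : IsSquare (f.resultant p (2 * g + 1) (2 * g) * (Q ^ j * e)) := by
    apply sq_of_K (K := K)
    rw [map_mul, hN]
    obtain ⟨y, hy⟩ := hn
    exact ⟨y * Algebra.norm K γ, by linear_combination ((Algebra.norm K γ) ^ 2) * hy⟩
  obtain ⟨m, hm⟩ := h5
  refine even_of_sq hQ j (f.resultant p (2 * g + 1) (2 * g) * e) m ?_ (by rw [← hm]; ring)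
  intro hd
  rcases hQ.prime.dvd_or_dvd hd with h6 | h6
  · exact hR0 ((hπ _).2 h6)
  · exact he h6

end main

end Run7.h847.PL
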