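import Pool.Agent.Run7.h847.PL.ADPA

/-!
# Project PRL (helper286), piece ADP, part B: the classes `cls`

helper847.
-/

set_option autoImplicit false
set_option linter.all false

open Polynomial IsDedekindDomain WithZero
open scoped Classical

namespace Run7.h847.PL

open Pool.Agent.N874.PP (Ov Ev Sq1)
open Pool.Agent.N352.PJ (IsGen Crd GoodR Ht dsc S_INT)
open Pool.Agent.N765.PJ (ev ev_L ev_f ev_ker ev_surj ex_poly ev_CQ theta_ex val_one)
open Run7.h784.TG (Fm LocW)
open Run7.h646.TG (fs mem_fs fs_coprime fs_prod fs_dvd fs_nonempty PF ex_prime prime_fac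
  map_eq_iff dvd_of_map red_sqf one_of unram even_nonsq sq1_unit)
open Run7.h286.PL (Adp cls)

section main

variable {k K L O : Type} [Field k] [Field K] [Algebra k[X] K] [IsFractionRing k[X] K]
  [Field L] [Algebra K L] [Algebra k[X] L] [IsScalarTower k[X] K L] [CommRing O]
  [IsDedekindDomain O] [Algebra O L] [IsFractionRing O L] [Algebra k[X] O]
  [IsScalarTower k[X] O L] [IsIntegralClosure O k[X] L] {g : ℕ} {f : k[X][X]} {θ : L}
  {Q : k[X]} {κ : Type} [Field κ] {π : k[X] →+* κ} {t : O}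

theorem lt_iff (ht : algebraMap O L t = θ) {𝔓 : HeightOneSpectrum O} {φ : κ[X]}
    (h3 : PF t Q π 𝔓 φ) (p : k[X][X]) :
    𝔓.valuation L (eval₂ (algebraMap k[X] L) θ p) < 1 ↔ φ ∣ p.map π := by
  rw [← ev_L ht, ← h3.mem]
  exact 𝔓.valuation_lt_one_iff_mem _

/-- the modified factor -/
theorem mod_a (hπs : Function.Surjective π)
    (hπ : ∀ c, π c = 0 ↔ Q ∣ c) (hQ : Irreducible Q)
    (hI : S_INT) (h : IsGen g K f θ) (hsq : Squarefree (dsc g f)) (ht : algebraMap O L t = θ)
    (hs : Squarefree (f.map π)) {a b : k[X][X]} (ha : a.Monic) (hb : b.Monic)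
    (hab : ∀ j, Q ∣ (f - a * b).coeff j) (w : k[X]) :
    ∃ (a' : k[X][X]) (e : k[X]), a'.map π = a.map π ∧ π e = (π w) ^ a.natDegree ∧
      Algebra.norm K (eval₂ (algebraMap k[X] L) θ a') =
        algebraMap k[X] K ((-Q) ^ a.natDegree * e) ∧
      ∀ 𝔓 : HeightOneSpectrum O, Ov Q 𝔓 →
        𝔓.valuation L (eval₂ (algebraMap k[X] L) θ a) < 1 →
        𝔓.valuation L (eval₂ (algebraMap k[X] L) θ a' * eval₂ (algebraMap k[X] L) θ b +
          algebraMap k[X] L (Q * w)) < 𝔓.valuation L (algebraMap k[X] L Q) := by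
  have hm := h.mon.map π
  have hf : f.map π = a.map π * b.map π := by
    rw [← Polynomial.map_mul]
    exact (map_eq_iff hπ).2 hab
  have hdeg : a.natDegree + b.natDegree = 2 * g + 1 := by
    have h1 : (f.map π).natDegree = (a.map π).natDegree + (b.map π).natDegree := by
      rw [hf, (ha.map π).natDegree_mul (hb.map π)]
    rw [h.mon.natDegree_map, ha.natDegree_map, hb.natDegree_map, h.deg] at h1
    exact h1.symm
  obtain ⟨c, hc⟩ := (C_dvd_iff_dvd_coeff Q (f - a * b)).2 hab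
  have hco : IsCoprime (a.map π) (b.map π) := by
    have : Squarefree (a.map π * b.map π) := hf ▸ hs
    exact (squarefree_mul_iff.1 this).1.isCoprime
  obtain ⟨x, y, hxy⟩ := hco
  -- the correction
  set U : κ[X] := (y * (c.map π - C (π w))) %ₘ (a.map π) with hU
  have hUm : a.map π ∣ c.map π - U * b.map π - C (π w) := by
    have h1 : y * (c.map π - C (π w)) - U = (a.map π) *
        ((y * (c.map π - C (π w))) /ₘ (a.map π)) := by
      have := modByMonic_add_div (y * (c.map π - C (π w))) (a.map π)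
      rw [hU]
      linear_combination -this
    refine ⟨x * (c.map π - C (π w)) + b.map π * ((y * (c.map π - C (π w))) /ₘ (a.map π)), ?_⟩
    linear_combination (c.map π - C (π w)) * (-hxy) + b.map π * h1
  obtain ⟨u, hu, hud⟩ : ∃ u : k[X][X], u.map π = U ∧ u.degree = U.degree := by
    have h1 : U ∈ lifts π := (mem_lifts U).2 (Polynomial.map_surjective π hπs U)
    exact mem_lifts_and_degree_eq h1
  have hUd : U.degree < (a.map π).degree := degree_modByMonic_lt _ (ha.map π)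
  have hdlt : (C Q * u).degree < a.degree := by
    refine lt_of_le_of_lt (degree_C_mul hQ.ne_zero).le ?_
    rw [hud, ← ha.degree_map π]
    exact hUd
  have ha' : (a + C Q * u).Monic := ha.add_of_left hdlt
  have had : (a + C Q * u).natDegree = a.natDegree := natDegree_add_eq_left_of_degree_lt hdlt
  have hfa : f = C Q * (c - u * b) + (a + C Q * u) * b := by
    linear_combination hc
  have hmap : (a + C Q * u).map π = a.map π := by
    rw [Polynomial.map_add, Polynomial.map_mul, Polynomial.map_C, (hπ Q).2 dvd_rfl, C_0, zero_mul,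
      add_zero]
  obtain ⟨s, hsd⟩ := hUm
  have hcd : (c - u * b).natDegree ≤ 2 * g + 1 := by
    have h1 : (C Q * (c - u * b)).natDegree ≤ 2 * g + 1 := by
      have : C Q * (c - u * b) = f - (a + C Q * u) * b := by linear_combination -hfa
      rw [this]
      refine (natDegree_sub_le _ _).trans (max_le h.deg.le ?_)
      rw [ha'.natDegree_mul hb, had, hdeg]
    rwa [natDegree_C_mul hQ.ne_zero] at h1
  have hmc : (c - u * b).map π = C (π w) + a.map π * s := by
    rw [Polynomial.map_sub, Polynomial.map_mul, hu]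
    linear_combination hsd
  refine ⟨a + C Q * u, (-1) ^ (2 * g * a.natDegree) *
    (a + C Q * u).resultant (c - u * b) a.natDegree (2 * g + 1), hmap, ?_, ?_, ?_⟩
  · rw [map_mul, ← resultant_map_map, hmap, hmc, mul_assoc 2 g a.natDegree, pow_mul, neg_one_sq,
      one_pow, map_one, one_mul]
    have hsn : s.natDegree + a.natDegree ≤ 2 * g + 1 := by
      by_cases hs0 : s = 0
      · rw [hs0, natDegree_zero]
        omega
      · have h1 : (a.map π * s).natDegree ≤ 2 * g + 1 := by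
          have : a.map π * s = (c - u * b).map π - C (π w) := by rw [hmc]; ring
          rw [this]
          refine (natDegree_sub_le _ _).trans (max_le (natDegree_map_le.trans hcd) ?_)
          rw [natDegree_C]
          omega
        rw [(ha.map π).natDegree_mul' hs0, ha.natDegree_map] at h1
        omega
    rw [resultant_add_mul_right _ _ _ _ _ hsn (by rw [ha.natDegree_map])]
    have h2 := resultant_add_right_deg (a.map π) (C (π w)) a.natDegree 0 (2 * g + 1)
      (by rw [natDegree_C])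
    rw [zero_add] at h2
    rw [h2, ← ha.natDegree_map π, (show (a.map π).coeff (a.map π).natDegree = 1 from ha.map π),
      one_pow, one_mul]
    simp
  · have h3 := Pool.Agent.N769.PJ.nrm h hsq.ne_zero ((a + C Q * u).map (algebraMap k[X] K))
      a.natDegree (natDegree_map_le.trans had.le)
    rw [resultant_map_map, aeval_map_algebraMap, aeval_def] at h3
    rw [h3]
    congr 1
    have key : (a + C Q * u).resultant f a.natDegree (2 * g + 1) = Q ^ a.natDegree *
        (a + C Q * u).resultant (c - u * b) a.natDegree (2 * g + 1) := by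
      have h4 : (a + C Q * u).resultant (C Q * (c - u * b) + (a + C Q * u) * b) a.natDegree
          (2 * g + 1) = (a + C Q * u).resultant (C Q * (c - u * b)) a.natDegree (2 * g + 1) :=
        resultant_add_mul_right _ _ _ _ _ (by omega) had.le
      rw [← hfa] at h4
      rw [h4, resultant_C_mul_right]
    rw [resultant_comm, key]
    have e1 : ((-1 : k[X]) ^ ((2 * g + 1) * a.natDegree)) =
        (-1) ^ a.natDegree * (-1) ^ (2 * g * a.natDegree) := by
      rw [← pow_add]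
      congr 1
      ring
    rw [e1, neg_pow Q]
    ring
  · intro 𝔓 hov hlt
    have hroot : eval₂ (algebraMap k[X] L) θ f = 0 := h.root
    have e1 : eval₂ (algebraMap k[X] L) θ (a + C Q * u) * eval₂ (algebraMap k[X] L) θ b =
        - (algebraMap k[X] L Q * eval₂ (algebraMap k[X] L) θ (c - u * b)) := by
      have h5 := hroot
      rw [hfa, eval₂_add, eval₂_mul, eval₂_C, eval₂_mul] at h5
      linear_combination h5
    have e2 : eval₂ (algebraMap k[X] L) θ (a + C Q * u) * eval₂ (algebraMap k[X] L) θ b +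
        algebraMap k[X] L (Q * w) =
        - (algebraMap k[X] L Q * eval₂ (algebraMap k[X] L) θ (c - u * b - C w)) := by
      rw [e1, eval₂_sub _ (p := c - u * b), eval₂_C, map_mul]
      ring
    obtain ⟨φ, hφ, h3⟩ := prime_fac (K := K) hπs hπ hQ hI h hsq ht hs hov
    have h6 : 𝔓.valuation L (eval₂ (algebraMap k[X] L) θ (c - u * b - C w)) < 1 := by
      rw [lt_iff ht h3]
      refine ((lt_iff ht h3 a).1 hlt).trans ?_
      rw [Polynomial.map_sub, Polynomial.map_C, hmc, add_sub_cancel_left]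
      exact dvd_mul_right _ _
    have hQ0 : algebraMap k[X] L Q ≠ 0 := by
      intro h0
      exact hQ.ne_zero (Pool.Agent.N862.PP.algL_inj (K := K) (by rw [h0, map_zero]))
    rw [e2, Valuation.map_neg, map_mul]
    have h7 : 0 < 𝔓.valuation L (algebraMap k[X] L Q) :=
      lt_of_le_of_ne zero_le' (Ne.symm ((Valuation.ne_zero_iff _).2 hQ0))
    exact mul_lt_of_lt_one_right h7 h6

/-- the factorisation is determined modulo `Q` by the primes -/
theorem uniq_ab (hπs : Function.Surjective π)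
    (hπ : ∀ c, π c = 0 ↔ Q ∣ c) (hQ : Irreducible Q)
    (hI : S_INT) (h : IsGen g K f θ) (hsq : Squarefree (dsc g f)) (ht : algebraMap O L t = θ)
    (hs : Squarefree (f.map π)) {a b a' b' : k[X][X]} (ha : a.Monic) (ha' : a'.Monic)
    (hab : ∀ j, Q ∣ (f - a * b).coeff j) (hab' : ∀ j, Q ∣ (f - a' * b').coeff j)
    (hiff : ∀ 𝔓 : HeightOneSpectrum O, Ov Q 𝔓 →
      (𝔓.valuation L (eval₂ (algebraMap k[X] L) θ a) < 1 ↔
        𝔓.valuation L (eval₂ (algebraMap k[X] L) θ a') < 1)) :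
    a.map π = a'.map π ∧ b.map π = b'.map π := by
  have hf : f.map π = a.map π * b.map π := by
    rw [← Polynomial.map_mul]
    exact (map_eq_iff hπ).2 hab
  have hf' : f.map π = a'.map π * b'.map π := by
    rw [← Polynomial.map_mul]
    exact (map_eq_iff hπ).2 hab'
  have hf0 := (h.mon.map π).ne_zero
  have key : ∀ (c c' d : k[X][X]), c.Monic → f.map π = c.map π * d.map π →
      (∀ 𝔓 : HeightOneSpectrum O, Ov Q 𝔓 →
      (𝔓.valuation L (eval₂ (algebraMap k[X] L) θ c) < 1 →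
        𝔓.valuation L (eval₂ (algebraMap k[X] L) θ c') < 1)) → c.map π ∣ c'.map π := by
    intro c c' d hc hcd hcc
    have hsc : Squarefree (c.map π) := hs.squarefree_of_dvd (Dvd.intro _ hcd.symm)
    refine fs_dvd (hc.map π) hsc fun φ hφ => ?_
    obtain ⟨a1, a2, a3⟩ := (mem_fs (hc.map π).ne_zero).1 hφ
    have hφ' : φ ∈ fs (f.map π) := (mem_fs hf0).2 ⟨a1, a2, by rw [hcd]; exact a3.mul_right _⟩
    obtain ⟨𝔓, h𝔓⟩ := ex_prime (K := K) hπs hπ hQ hI h hsq ht hφ'
    exact (lt_iff ht h𝔓 _).1 (hcc 𝔓 h𝔓.ov ((lt_iff ht h𝔓 _).2 a3))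
  have h1 := key a a' b ha hf fun 𝔓 hov => (hiff 𝔓 hov).1
  have h2 := key a' a b' ha' hf' fun 𝔓 hov => (hiff 𝔓 hov).2
  have h3 : a.map π = a'.map π :=
    eq_of_monic_of_associated (ha.map π) (ha'.map π) (associated_of_dvd_dvd h1 h2)
  refine ⟨h3, ?_⟩
  apply mul_left_cancel₀ (ha.map π).ne_zero
  rw [← hf, hf', h3]

/-- values of congruent polynomials -/
theorem cong_val (hπ : ∀ c, π c = 0 ↔ Q ∣ c) (h : IsGen g K f θ) {p q : k[X][X]}
    (hpq : p.map π = q.map π) {𝔓 : HeightOneSpectrum O} (hov : Ov Q 𝔓) :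
    𝔓.valuation L (eval₂ (algebraMap k[X] L) θ p - eval₂ (algebraMap k[X] L) θ q) < 1 := by
  have h3 := Run7.h779.TG.val_ev_lt ⟨f, h.mon, h.root⟩ hov ((map_eq_iff hπ).1 hpq)
  rwa [Run7.h779.TG.ev, eval₂_sub] at h3

/-- the data at a prime over `Q` -/
theorem cls_dich (hπs : Function.Surjective π)
    (hπ : ∀ c, π c = 0 ↔ Q ∣ c) (hQ : Irreducible Q)
    (hI : S_INT) (h : IsGen g K f θ) (hsq : Squarefree (dsc g f)) (ht : algebraMap O L t = θ)
    (hs : Squarefree (f.map π)) {a b : k[X][X]}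
    (hab : ∀ j, Q ∣ (f - a * b).coeff j) {w : k[X]} (hw : ¬ Q ∣ w)
    {𝔓 : HeightOneSpectrum O} (hov : Ov Q 𝔓) :
    (𝔓.valuation L (eval₂ (algebraMap k[X] L) θ a) < 1 ∧
        𝔓.valuation L (eval₂ (algebraMap k[X] L) θ b) = 1 ∧
        cls θ (Q * w) 𝔓 a b = algebraMap k[X] L (-(Q * w)) * eval₂ (algebraMap k[X] L) θ b ∧
        𝔓.valuation L (cls θ (Q * w) 𝔓 a b) = exp (-1 : ℤ) ∧
        𝔓.valuation L (algebraMap k[X] L (Q * w)) = exp (-1 : ℤ)) ∨
      (𝔓.valuation L (eval₂ (algebraMap k[X] L) θ a) = 1 ∧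
        ¬ 𝔓.valuation L (eval₂ (algebraMap k[X] L) θ a) < 1 ∧
        cls θ (Q * w) 𝔓 a b = eval₂ (algebraMap k[X] L) θ a ∧
        𝔓.valuation L (cls θ (Q * w) 𝔓 a b) = 1) := by
  obtain ⟨φ, hφ, h3⟩ := prime_fac (K := K) hπs hπ hQ hI h hsq ht hs hov
  have hw1 : 𝔓.valuation L (algebraMap k[X] L w) = 1 := by
    rw [← Pool.Agent.N765.PJ.mapO (O := O)]
    exact 𝔓.valuation_eq_one_iff_notMem.mpr fun h3 => hw ((Pool.Agent.N765.PJ.ov_iff hQ hov w).1 h3)
  have hu := unram (K := K) hπs hπ hQ hI h hsq ht hs hov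
  have hD : 𝔓.valuation L (algebraMap k[X] L (Q * w)) = exp (-1 : ℤ) := by
    rw [map_mul, map_mul, hw1, mul_one, hu]
  rcases one_of hπs hπ h ht hs hab hφ h3 with ⟨h4, h5⟩ | ⟨h4, h5⟩
  · left
    have e : cls θ (Q * w) 𝔓 a b =
        algebraMap k[X] L (-(Q * w)) * eval₂ (algebraMap k[X] L) θ b := if_pos h4
    refine ⟨h4, h5, e, ?_, hD⟩
    rw [e, map_mul, h5, mul_one, map_neg, Valuation.map_neg, hD]
  · right
    have h6 : ¬ 𝔓.valuation L (eval₂ (algebraMap k[X] L) θ a) < 1 := by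
      rw [h4]
      exact lt_irrefl _
    have e : cls θ (Q * w) 𝔓 a b = eval₂ (algebraMap k[X] L) θ a := if_neg h6
    exact ⟨h4, h6, e, by rw [e, h4]⟩

theorem cls_ne (hπs : Function.Surjective π)
    (hπ : ∀ c, π c = 0 ↔ Q ∣ c) (hQ : Irreducible Q)
    (hI : S_INT) (h : IsGen g K f θ) (hsq : Squarefree (dsc g f)) (ht : algebraMap O L t = θ)
    (hs : Squarefree (f.map π)) {a b : k[X][X]}
    (hab : ∀ j, Q ∣ (f - a * b).coeff j) {w : k[X]} (hw : ¬ Q ∣ w)
    {𝔓 : HeightOneSpectrum O} (hov : Ov Q 𝔓) :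
    cls θ (Q * w) 𝔓 a b ≠ 0 ∧ (Ev 𝔓 (cls θ (Q * w) 𝔓 a b) ↔
      ¬ 𝔓.valuation L (eval₂ (algebraMap k[X] L) θ a) < 1) := by
  rcases cls_dich (K := K) hπs hπ hQ hI h hsq ht hs hab hw hov with ⟨h1, -, -, h2, -⟩ | ⟨-, h1, -, h2⟩
  · have h0 : cls θ (Q * w) 𝔓 a b ≠ 0 := by
      rw [← Valuation.ne_zero_iff (𝔓.valuation L), h2]
      exact exp_ne_zero
    refine ⟨h0, ?_⟩
    rw [Pool.Agent.N539.PP.ev_iff 𝔓 h0, h2, log_exp]
    simp only [h1, not_true_eq_false, iff_false]
    decide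
  · have h0 : cls θ (Q * w) 𝔓 a b ≠ 0 := by
      rw [← Valuation.ne_zero_iff (𝔓.valuation L), h2]
      exact one_ne_zero
    refine ⟨h0, ?_⟩
    rw [Pool.Agent.N539.PP.ev_iff 𝔓 h0, h2, log_one]
    simp [h1]

/-- the class does not depend on the choice of the factorisation -/
theorem cls_cong (hπs : Function.Surjective π)
    (hπ : ∀ c, π c = 0 ↔ Q ∣ c) (hQ : Irreducible Q)
    (hI : S_INT) (h : IsGen g K f θ) (hsq : Squarefree (dsc g f)) (ht : algebraMap O L t = θ)
    (hs : Squarefree (f.map π)) {a b a' b' : k[X][X]}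
    (hab : ∀ j, Q ∣ (f - a * b).coeff j) {w : k[X]} (hw : ¬ Q ∣ w)
    (ea : a.map π = a'.map π) (eb : b.map π = b'.map π)
    {𝔓 : HeightOneSpectrum O} (hov : Ov Q 𝔓) {x : L} (hx : x ≠ 0)
    (h1 : Sq1 𝔓 (x * cls θ (Q * w) 𝔓 a b)) : Sq1 𝔓 (x * cls θ (Q * w) 𝔓 a' b') := by
  have ka := cong_val (K := K) hπ h ea hov
  have kb := cong_val (K := K) hπ h eb hov
  have hw0 : w ≠ 0 := by
    rintro rfl
    exact hw (dvd_zero _)
  have hDL : algebraMap k[X] L (-(Q * w)) ≠ 0 := by
    intro h0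
    exact (neg_ne_zero.2 (mul_ne_zero hQ.ne_zero hw0))
      (Pool.Agent.N862.PP.algL_inj (K := K) (by rw [h0, map_zero]))
  rcases cls_dich (K := K) hπs hπ hQ hI h hsq ht hs hab hw hov with ⟨h4, h5, e, -, -⟩ | ⟨h4, h5, e, -⟩
  · have h6 := Run7.h779.TG.val_close_lt 𝔓 h4 ka
    have e' : cls θ (Q * w) 𝔓 a' b' =
        algebraMap k[X] L (-(Q * w)) * eval₂ (algebraMap k[X] L) θ b' := if_pos h6
    rw [e, ← mul_assoc] at h1
    rw [e', ← mul_assoc]
    exact Run7.h779.TG.sq1_congr 𝔓 (mul_ne_zero hx hDL) h5 kb h1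
  · have h6 := Run7.h779.TG.val_close 𝔓 h4 ka
    have e' : cls θ (Q * w) 𝔓 a' b' = eval₂ (algebraMap k[X] L) θ a' := by
      apply if_neg
      rw [h6]
      exact lt_irrefl _
    rw [e] at h1
    rw [e']
    exact Run7.h779.TG.sq1_congr 𝔓 hx h4 ka h1

end main

end Run7.h847.PL
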